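import Pool.Agent.Helper46.C2.St

/-!
Project C2, module GB.
-/

set_option autoImplicit false

namespace Pool.Agent.Helper22.C2

open Pool.Agent.Helper46.C2 Pool.Agent.Helper43.GD

private theorem cj_sh {G : Type} [Group G] (a t : G) (i m : ℤ) :
    t ^ (-m) * cj a t i * t ^ m = cj a t (i + m) := by
  unfold cj
  rw [zpow_add, neg_add, zpow_add, zpow_neg, zpow_neg]
  have h : t ^ i * t ^ m = t ^ m * t ^ i := by rw [← zpow_add, ← zpow_add, add_comm]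
  have h2 : (t ^ i)⁻¹ * (t ^ m)⁻¹ = (t ^ m)⁻¹ * (t ^ i)⁻¹ := by
    rw [← mul_inv_rev, ← mul_inv_rev, h]
  rw [h2]
  group

private theorem cj_mul {G : Type} [Group G] (a b t : G) (i : ℤ) :
    cj (a * b) t i = cj a t i * cj b t i := by
  unfold cj
  group

theorem hGB : StGB := by
  intro G _ k a w t ⟨r1, r2, r3⟩
  -- conjugation of powers of t by w
  have hT : ∀ n : ℤ, t ^ n * w = w * t ^ (-n) := by
    intro n
    have h1 : (w⁻¹ * t * w) ^ n = w⁻¹ * t ^ n * w := by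
      have h := conj_zpow (a := w⁻¹) (b := t) (i := n)
      rwa [inv_inv] at h
    have h2 : w⁻¹ * t ^ n * w = t ^ (-n) := by
      rw [← h1, r2, inv_zpow, zpow_neg]
    rw [← h2]
    group
  have hT' : ∀ n : ℤ, w⁻¹ * t ^ n = t ^ (-n) * w⁻¹ := by
    intro n
    have h := hT (-n)
    rw [neg_neg] at h
    have h3 : w⁻¹ * (w * t ^ n) * w⁻¹ = w⁻¹ * (t ^ (-n) * w) * w⁻¹ := by rw [h]
    have h4 : t ^ n * w⁻¹ = w⁻¹ * t ^ (-n) := by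
      calc t ^ n * w⁻¹ = w⁻¹ * (w * t ^ n) * w⁻¹ := by group
        _ = w⁻¹ * (t ^ (-n) * w) * w⁻¹ := h3
        _ = w⁻¹ * t ^ (-n) := by group
    have h5 := hT n
    calc w⁻¹ * t ^ n = w⁻¹ * (t ^ n * w) * w⁻¹ := by group
      _ = w⁻¹ * (w * t ^ (-n)) * w⁻¹ := by rw [h5]
      _ = t ^ (-n) * w⁻¹ := by group
  -- third relation
  have r3' : ∀ j : ℤ, cj a t (j + 1) = cj a t j * cj a t (j + k) := by
    intro j
    have h1 : t ^ (-j) * cj a t 1 * t ^ j = t ^ (-j) * (a * cj a t (k : ℤ)) * t ^ j := by rw [r3]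
    rw [cj_sh] at h1
    have h2 : t ^ (-j) * (a * cj a t (k : ℤ)) * t ^ j
        = (t ^ (-j) * a * t ^ j) * (t ^ (-j) * cj a t (k : ℤ) * t ^ j) := by group
    rw [h2, cj_sh, add_comm 1 j, add_comm (k : ℤ) j] at h1
    exact h1
  -- conjugation by w
  have hW : ∀ i : ℤ, w * cj a t (-i) * w⁻¹ = cj (a * w * a) t i := by
    intro i
    unfold cj
    rw [neg_neg, r1]
    have h1 : w * t ^ i = t ^ (-i) * w := by
      have := hT (-i)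
      rw [neg_neg] at this
      exact this.symm
    have h2 : t ^ (-i) * w⁻¹ = w⁻¹ * t ^ i := (hT' i).symm
    calc w * (t ^ i * a * t ^ (-i)) * w⁻¹ = (w * t ^ i) * a * (t ^ (-i) * w⁻¹) := by
          simp only [mul_assoc]
      _ = (t ^ (-i) * w) * a * (w⁻¹ * t ^ i) := by rw [h1, h2]
      _ = t ^ (-i) * (w * a * w⁻¹) * t ^ i := by simp only [mul_assoc]
  have hE : cj (a * w * a) t ((k : ℤ) - 2)
      = cj (a * w * a) t ((k : ℤ) - 1) * cj (a * w * a) t (-1) := by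
    have h1 := r3' (-((k : ℤ) - 1))
    have e1 : -((k : ℤ) - 1) + 1 = -((k : ℤ) - 2) := by ring
    have e2 : -((k : ℤ) - 1) + (k : ℤ) = -(-1) := by ring
    rw [e1, e2] at h1
    rw [← hW, ← hW, ← hW, h1]
    group
  have hw : ∀ i : ℤ, cj w t i = w * t ^ (2 * i) := by
    intro i
    unfold cj
    rw [hT (-i), neg_neg, mul_assoc, ← zpow_add]
    congr 2
    ring
  rw [cj_mul, cj_mul, cj_mul, cj_mul, cj_mul, cj_mul] at hE
  have g1 := r3' ((k : ℤ) - 2)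
  have g2 := r3' (-2)
  have g3 := r3' (-1)
  have e1 : (k : ℤ) - 2 + 1 = (k : ℤ) - 1 := by ring
  have e2 : (k : ℤ) - 2 + (k : ℤ) = 2 * (k : ℤ) - 2 := by ring
  have e3 : (-2 : ℤ) + 1 = -1 := by norm_num
  have e4 : (-2 : ℤ) + (k : ℤ) = (k : ℤ) - 2 := by ring
  have e5 : (-1 : ℤ) + 1 = 0 := by norm_num
  have e6 : (-1 : ℤ) + (k : ℤ) = (k : ℤ) - 1 := by ring
  rw [e1, e2] at g1
  rw [e3, e4] at g2
  rw [e5, e6] at g3
  have c0 : cj a t 0 = a := by unfold cj; group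
  rw [c0] at g3
  -- abbreviations
  obtain ⟨A1, hA1⟩ : ∃ x, x = cj a t ((k : ℤ) - 1) := ⟨_, rfl⟩
  obtain ⟨A2, hA2⟩ : ∃ x, x = cj a t ((k : ℤ) - 2) := ⟨_, rfl⟩
  obtain ⟨al, hal⟩ : ∃ x, x = cj a t (-1) := ⟨_, rfl⟩
  rw [← hA1, ← hA2, ← hal] at hE
  rw [← hA1, ← hA2] at g1
  rw [← hA2, ← hal] at g2
  rw [← hA1, ← hal] at g3
  rw [← hal]
  have k1 : A1 * al = (cj w t ((k : ℤ) - 1))⁻¹ * (cj a t (2 * (k : ℤ) - 2))⁻¹ *
      cj w t ((k : ℤ) - 2) * (cj a t (-2))⁻¹ * (cj w t (-1))⁻¹ := by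
    have h1 : A1⁻¹ * A2 = (cj a t (2 * (k : ℤ) - 2))⁻¹ := by rw [g1]; group
    have h2 : A2 * al⁻¹ = (cj a t (-2))⁻¹ := by rw [g2]; group
    rw [← h1, ← h2]
    have h3 : (cj w t ((k : ℤ) - 1))⁻¹ * (A1⁻¹ * A2) * cj w t ((k : ℤ) - 2) * (A2 * al⁻¹) *
        (cj w t (-1))⁻¹ = (cj w t ((k : ℤ) - 1))⁻¹ * A1⁻¹ *
          (A2 * cj w t ((k : ℤ) - 2) * A2) * al⁻¹ * (cj w t (-1))⁻¹ := by
      simp only [mul_assoc]
    rw [h3, hE]
    group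
  have k2 : A1 * al = w⁻¹ * a⁻¹ * w * a⁻¹ * w⁻¹ := by
    rw [k1, hw, hw, hw]
    obtain ⟨m, hm⟩ : ∃ m : ℤ, m = 2 * (k : ℤ) - 2 := ⟨_, rfl⟩
    have m1 : 2 * ((k : ℤ) - 1) = m := by rw [hm]; ring
    have m2 : 2 * ((k : ℤ) - 2) = m - 2 := by rw [hm]; ring
    rw [m1, m2, ← hm]
    unfold cj
    have q1 : (w * t ^ m)⁻¹ = t ^ (-m) * w⁻¹ := by rw [mul_inv_rev, zpow_neg]
    have q2 : (t ^ (-m) * a * t ^ m)⁻¹ = t ^ (-m) * a⁻¹ * t ^ m := by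
      rw [mul_inv_rev, mul_inv_rev, zpow_neg]; group
    have q3 : (t ^ (-(-2 : ℤ)) * a * t ^ (-2 : ℤ))⁻¹ = t ^ (2 : ℤ) * a⁻¹ * t ^ (-2 : ℤ) := by
      group
    have q4 : (w * t ^ (2 * (-1) : ℤ))⁻¹ = t ^ (2 : ℤ) * w⁻¹ := by
      group
    rw [q1, q2, q3, q4]
    calc t ^ (-m) * w⁻¹ * (t ^ (-m) * a⁻¹ * t ^ m) * (w * t ^ (m - 2)) *
          (t ^ (2 : ℤ) * a⁻¹ * t ^ (-2 : ℤ)) * (t ^ (2 : ℤ) * w⁻¹)
        = t ^ (-m) * (w⁻¹ * t ^ (-m)) * a⁻¹ * (t ^ m * w) * (t ^ (m - 2) * t ^ (2 : ℤ)) * a⁻¹ *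
          (t ^ (-2 : ℤ) * t ^ (2 : ℤ)) * w⁻¹ := by simp only [mul_assoc]
      _ = t ^ (-m) * (t ^ (- -m) * w⁻¹) * a⁻¹ * (w * t ^ (-m)) * t ^ (m - 2 + 2) * a⁻¹ *
          t ^ (-2 + 2 : ℤ) * w⁻¹ := by rw [hT', hT, ← zpow_add, ← zpow_add]
      _ = (t ^ (-m) * t ^ (- -m)) * w⁻¹ * a⁻¹ * w * (t ^ (-m) * t ^ (m - 2 + 2)) * a⁻¹ *
          t ^ (-2 + 2 : ℤ) * w⁻¹ := by simp only [mul_assoc]
      _ = w⁻¹ * a⁻¹ * w * a⁻¹ * w⁻¹ := by
          rw [← zpow_add, ← zpow_add]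
          have z1 : -m + - -m = 0 := by ring
          have z2 : -m + (m - 2 + 2) = 0 := by ring
          have z3 : (-2 + 2 : ℤ) = 0 := by norm_num
          rw [z1, z2, z3, zpow_zero, one_mul, mul_one, mul_one]
  have k3 : al⁻¹ * a * al = A1 * al := by rw [g3]; group
  rw [k3, k2]
  -- w⁻¹ a⁻¹ w a⁻¹ w⁻¹ = a⁻¹ (a a w w)⁻¹
  have y2 : (a * w) * (a * w) = w * a := by
    calc (a * w) * (a * w) = (a * w * a) * w := by simp only [mul_assoc]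
      _ = (w * a * w⁻¹) * w := by rw [r1]
      _ = w * a := by group
  have y3 : (w * a) * (a * w) = (a * w) * (w * a) := by
    rw [← y2]; simp only [mul_assoc]
  have h1 : w * (a * w⁻¹ * a * w) = (a * a * (w * w)) * a := by
    calc w * (a * w⁻¹ * a * w) = (w * a * w⁻¹) * (a * w) := by simp only [mul_assoc]
      _ = (a * w * a) * (a * w) := by rw [r1]
      _ = a * ((w * a) * (a * w)) := by simp only [mul_assoc]
      _ = a * ((a * w) * (w * a)) := by rw [y3]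
      _ = (a * a * (w * w)) * a := by simp only [mul_assoc]
  have h2 : w⁻¹ * a⁻¹ * w * a⁻¹ * w⁻¹ = (w * (a * w⁻¹ * a * w))⁻¹ := by group
  rw [h2, h1, mul_inv_rev]

end Pool.Agent.Helper22.C2
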